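import Pool.Agent.Helper47.FX.Dat

/-!
# E1: the norms of the classes are rational functions, independent over the constants (not a result)
-/

set_option autoImplicit false
set_option linter.unusedSectionVars false

open Polynomial

namespace Pool.Agent.Helper47.FX

open Pool.Agent.TH954 Pool.Agent.Y791.BF Pool.Agent.Helper39.FT Pool.Agent.Helper39.FX

/-- polynomials with the same roots -/
lemma eq_of_rm {κ E : Type} [Field κ] [Field E] [IsAlgClosed E] [Algebra κ E] {P Q : κ[X]}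
    (hP : P ≠ 0) (hQ : Q ≠ 0) (h : ∀ b : E, (P.map (algebraMap κ E)).rootMultiplicity b =
      (Q.map (algebraMap κ E)).rootMultiplicity b) : ∃ c : κ, c ≠ 0 ∧ P = C c * Q := by
  classical
  have hinj := (algebraMap κ E).injective
  have hroots : (P.map (algebraMap κ E)).roots = (Q.map (algebraMap κ E)).roots := by
    ext b
    rw [count_roots, count_roots, h]
  have h1 := (IsAlgClosed.splits (P.map (algebraMap κ E))).eq_prod_roots
  have h2 := (IsAlgClosed.splits (Q.map (algebraMap κ E))).eq_prod_roots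
  have hp : P.leadingCoeff ≠ 0 := leadingCoeff_ne_zero.2 hP
  have hq : Q.leadingCoeff ≠ 0 := leadingCoeff_ne_zero.2 hQ
  refine ⟨P.leadingCoeff / Q.leadingCoeff, div_ne_zero hp hq, ?_⟩
  have h3 : C Q.leadingCoeff * P = C P.leadingCoeff * Q := by
    apply Polynomial.map_injective _ hinj
    rw [Polynomial.map_mul, Polynomial.map_mul, Polynomial.map_C, Polynomial.map_C]
    rw [leadingCoeff_map] at h1 h2
    rw [hroots] at h1
    obtain ⟨Rt, hRt⟩ : ∃ Rt, Rt = ((Q.map (algebraMap κ E)).roots.map (fun a => X - C a)).prod :=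
      ⟨_, rfl⟩
    rw [← hRt] at h1 h2
    rw [h1, h2]
    ring
  have h4 : C (P.leadingCoeff / Q.leadingCoeff) * Q =
      C (Q.leadingCoeff)⁻¹ * (C P.leadingCoeff * Q) := by
    rw [← mul_assoc, ← C_mul]
    congr 2
    rw [div_eq_mul_inv, mul_comm]
  rw [h4, ← h3, ← mul_assoc, ← C_mul, inv_mul_cancel₀ hq, C_1, one_mul]

/-- Vandermonde -/
lemma vdm {κ : Type} [Field κ] {n : ℕ} {S : Finset ℕ} (hS : S.card = n + 1)
    (hinj : ∀ c ∈ S, ∀ c' ∈ S, (c : κ) = (c' : κ) → c = c') {a : ℕ → κ}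
    (h : ∀ j ≤ n, ∑ c ∈ S, a c * (c : κ) ^ j = 0) : ∀ c ∈ S, a c = 0 := by
  classical
  intro c0 hc0
  have h1 : ∀ P : κ[X], P.natDegree ≤ n → ∑ c ∈ S, a c * P.eval (c : κ) = 0 := by
    intro P hP
    have e : ∀ c, P.eval (c : κ) = ∑ j ∈ Finset.range (n + 1), P.coeff j * (c : κ) ^ j :=
      fun c => eval_eq_sum_range' (n := n + 1) (Nat.lt_succ_of_le hP) c
    have e' : ∀ c ∈ S, a c * P.eval (c : κ) =
        ∑ j ∈ Finset.range (n + 1), P.coeff j * (a c * (c : κ) ^ j) := by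
      intro c _
      rw [e ((c : ℕ) : κ), Finset.mul_sum]
      exact Finset.sum_congr rfl fun j _ => by ring
    rw [Finset.sum_congr rfl e', Finset.sum_comm]
    refine Finset.sum_eq_zero fun j hj => ?_
    rw [← Finset.mul_sum, h j (Nat.lt_succ_iff.1 (Finset.mem_range.1 hj)), mul_zero]
  have h2 := h1 (∏ c ∈ S.erase c0, (X - C (c : κ))) (by
    rw [natDegree_prod_of_monic _ _ fun c _ => monic_X_sub_C _]
    simp only [natDegree_X_sub_C, Finset.sum_const, smul_eq_mul, mul_one]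
    rw [Finset.card_erase_of_mem hc0, hS]
    omega)
  rw [← Finset.add_sum_erase _ _ hc0] at h2
  have h3 : ∑ c ∈ S.erase c0, a c * (∏ c' ∈ S.erase c0, (X - C (c' : κ))).eval (c : κ) = 0 := by
    refine Finset.sum_eq_zero fun c hc => ?_
    rw [eval_prod, Finset.prod_eq_zero hc, mul_zero]
    rw [eval_sub, eval_X, eval_C, sub_self]
  rw [h3, add_zero, eval_prod] at h2
  refine (mul_eq_zero.1 h2).resolve_right (Finset.prod_ne_zero_iff.2 fun c hc h4 => ?_)
  rw [eval_sub, eval_X, eval_C, sub_eq_zero] at h4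
  exact (Finset.mem_erase.1 hc).1 (hinj c0 hc0 c (Finset.mem_of_mem_erase hc) h4).symm

variable {K k : Type} [Field K] [CharZero K] [hess : Algebra.EssFiniteType ℚ K] [Field k]
  {F0 : Type} [Field F0] [CharZero F0] [Algebra k F0] (W : Crv K k)
  (q : ∀ i : PlF k, Plc k F0 i.Lv)

include hess in
/-- the multiplicities are small -/
theorem small2 (hLFT : S_LFT) {A : ℕ → ℕ → K[X][X]} {B0 : ℕ}
    (hA : ∀ c N, 0 < N → resultant W.f (A c N) ≠ 0)
    (hD : ∀ (Z : Finset K) (n0 : ℕ), ∃ D : RSys K, n0 < D.p ∧ GoodZ D Z ∧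
      Nonempty (RData W D A B0)) (c : ℕ) {N : ℕ} (hN : 0 < N) (ρ : AlgebraicClosure K) :
    ∃ n : ℤ, |n| ≤ B0 ∧ (N : ℤ) ∣ (Types.mu (resultant W.f (A c N)) ρ : ℤ) - n := by
  classical
  obtain ⟨Z, hZ⟩ := hLFT K (resultant W.f (A c N)) (hA c N hN) ρ
  obtain ⟨D, hDp, hDZ, ⟨G⟩⟩ := hD (Z ∪ coef2 (A c N) ∪ coef (resultant W.f (A c N))) N
  obtain ⟨R', hR', hR0⟩ := goodP_coef D (hA c N hN)
    (Z := Z ∪ coef2 (A c N) ∪ coef (resultant W.f (A c N))) (fun z hz => by simp [hz]) hDZ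
  have hl := exists_lift2 D (A := A c N)
    (Z := Z ∪ coef2 (A c N) ∪ coef (resultant W.f (A c N))) (fun z hz => by simp [hz]) hDZ
  obtain ⟨b, hb⟩ := hZ D (fun z hz => hDZ z (by simp [hz])) R' hR'
  have hb' : Types.mu (resultant W.f (A c N)) ρ = D.rm b (R'.map D.r) := by
    rw [hb, RSys.rm, Polynomial.map_map]
  have hpN : ¬ D.p ∣ N := fun h => absurd (Nat.le_of_dvd hN h) (by omega)
  have h1 := G.cong c N hN hpN hl R' hR' hR0 b
  refine ⟨(D.rm b (G.F.eval (c : (ZMod D.p)[X])) : ℤ) - D.rm b (G.F.coeff W.f.natDegree),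
    abs_sub_nat ((D.rm_le b _).trans (G.eval_deg W c)) ((D.rm_le b _).trans (G.bd _)), ?_⟩
  rw [hb', ← dvd_neg]
  have e : -((D.rm b (R'.map D.r) : ℤ) - ((D.rm b (G.F.eval (c : (ZMod D.p)[X])) : ℤ) -
      D.rm b (G.F.coeff W.f.natDegree))) = (D.rm b (G.F.eval (c : (ZMod D.p)[X])) : ℤ) -
      D.rm b (G.F.coeff W.f.natDegree) - D.rm b (R'.map D.r) := by ring
  rw [e]
  exact h1

include hess in
/-- independence -/
theorem indep2 {A : ℕ → ℕ → K[X][X]} {B0 : ℕ}
    (hA : ∀ c N, 0 < N → resultant W.f (A c N) ≠ 0)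
    (hD : ∀ (Z : Finset K) (n0 : ℕ), ∃ D : RSys K, n0 < D.p ∧ GoodZ D Z ∧
      Nonempty (RData W D A B0)) (m : ℕ) (G1 G2 : ℕ → K[X]) (hG1 : ∀ c, G1 c ≠ 0)
    (hG2 : ∀ c, G2 c ≠ 0)
    (hG : ∀ c N : ℕ, 0 < N → ∃ (d : K) (h : K[X]), d ≠ 0 ∧ h ≠ 0 ∧
      resultant W.f (A c N) * G2 c * G1 c ^ (N - 1) = C d * h ^ N)
    (S : Finset ℕ) (hSm : ∀ c ∈ S, c < m) (hS : S.card = W.f.natDegree + 1) (w : ℕ → K)
    (hw : ∑ c ∈ S, C (w c) * (G1 c * ∏ c' ∈ (Finset.range m).erase c, G2 c') = 0) :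
    ∀ c ∈ S, w c = 0 := by
  classical
  by_contra hcon
  push Not at hcon
  obtain ⟨c0, hc0, hwc0⟩ := hcon
  obtain ⟨s0, hs0⟩ : ∃ s0 : ℕ, s0 = ∑ c ∈ Finset.range m, ((G1 c).natDegree + (G2 c).natDegree) :=
    ⟨_, rfl⟩
  set N := B0 + s0 + 1 with hN
  have hN0 : 0 < N := Nat.succ_pos _
  choose d h hd hh hdh using fun c => hG c N hN0
  set Z : Finset K := (Finset.range m).biUnion (fun c => coef2 (A c N) ∪
    coef (resultant W.f (A c N)) ∪ coef (G1 c) ∪ coef (G2 c) ∪ coef (h c) ∪ {d c, w c}) with hZ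
  obtain ⟨D, hDp, hDZ, ⟨G⟩⟩ := hD Z (N + m)
  have hmem : ∀ c < m, ∀ z, z ∈ coef2 (A c N) ∪ coef (resultant W.f (A c N)) ∪ coef (G1 c) ∪
      coef (G2 c) ∪ coef (h c) ∪ {d c, w c} → z ∈ Z := fun c hc z hz =>
    Finset.mem_biUnion.2 ⟨c, Finset.mem_range.2 hc, hz⟩
  -- the lifts
  have L : ∀ c : ℕ, ∃ (R' g1 g2 h' : D.B[X]) (d' w' : D.B), c < m →
      R'.map D.B.subtype = resultant W.f (A c N) ∧ R'.map D.r ≠ 0 ∧
      g1.map D.B.subtype = G1 c ∧ g1.map D.r ≠ 0 ∧ g2.map D.B.subtype = G2 c ∧ g2.map D.r ≠ 0 ∧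
      h'.map D.B.subtype = h c ∧ h'.map D.r ≠ 0 ∧ (d' : K) = d c ∧ D.r d' ≠ 0 ∧
      (w' : K) = w c ∧ (w c ≠ 0 → D.r w' ≠ 0) := by
    intro c
    by_cases hc : c < m
    · obtain ⟨R', hR', hR0⟩ := goodP_coef D (hA c N hN0) (Z := Z)
        (fun z hz => hmem c hc z (by simp [hz])) hDZ
      obtain ⟨g1, hg1, hg10⟩ := goodP_coef D (hG1 c) (Z := Z)
        (fun z hz => hmem c hc z (by simp [hz])) hDZ
      obtain ⟨g2, hg2, hg20⟩ := goodP_coef D (hG2 c) (Z := Z)
        (fun z hz => hmem c hc z (by simp [hz])) hDZ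
      obtain ⟨h', hh', hh0⟩ := goodP_coef D (hh c) (Z := Z)
        (fun z hz => hmem c hc z (by simp [hz])) hDZ
      obtain ⟨e1, e2⟩ := hDZ (d c) (hmem c hc _ (by simp)) (hd c)
      by_cases hwc : w c = 0
      · exact ⟨R', g1, g2, h', ⟨_, e1⟩, 0, fun _ => ⟨hR', hR0, hg1, hg10, hg2, hg20, hh', hh0, rfl, e2,
          by simp [hwc], fun h => absurd hwc h⟩⟩
      · obtain ⟨e3, e4⟩ := hDZ (w c) (hmem c hc _ (by simp)) hwc
        exact ⟨R', g1, g2, h', ⟨_, e1⟩, ⟨_, e3⟩, fun _ => ⟨hR', hR0, hg1, hg10, hg2, hg20, hh', hh0,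
          rfl, e2, rfl, fun _ => e4⟩⟩
    · exact ⟨0, 0, 0, 0, 0, 0, fun h => absurd h hc⟩
  choose R' g1 g2 h' d' w' hL using L
  have hpN : ¬ D.p ∣ N := fun h => absurd (Nat.le_of_dvd hN0 h) (by omega)
  set n := W.f.natDegree with hn
  have hlead : G.F.coeff n ≠ 0 := G.lead
  -- the reductions are proportional
  have hprop : ∀ c < m, ∃ κ : ZMod D.p, κ ≠ 0 ∧
      G.F.eval (c : (ZMod D.p)[X]) * (g2 c).map D.r = C κ * (G.F.coeff n * (g1 c).map D.r) := by
    intro c hc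
    obtain ⟨hR, hR0, hg1, hg10, hg2, hg20, hh', hh0, hd', hd0, -, -⟩ := hL c hc
    have hl := exists_lift2 D (A := A c N) (Z := Z) (fun z hz => hmem c hc z (by simp [hz])) hDZ
    have e1 : R' c * g2 c * g1 c ^ (N - 1) = C (d' c) * h' c ^ N := by
      apply Polynomial.map_injective D.B.subtype D.B.subtype_injective
      rw [Polynomial.map_mul, Polynomial.map_mul, Polynomial.map_mul, Polynomial.map_pow,
        Polynomial.map_pow, Polynomial.map_C, hR, hg1, hg2, hh', Subring.coe_subtype, hd']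
      exact hdh c
    have e2 := congrArg (Polynomial.map D.r) e1
    rw [Polynomial.map_mul, Polynomial.map_mul, Polynomial.map_mul, Polynomial.map_pow,
      Polynomial.map_pow, Polynomial.map_C] at e2
    refine eq_of_rm (E := D.E) (mul_ne_zero (G.eval_ne W c) hg20) (mul_ne_zero hlead hg10)
      fun b => ?_
    change D.rm b _ = D.rm b _
    rw [D.rm_mul (G.eval_ne W c) hg20, D.rm_mul hlead hg10]
    have e3 : D.rm b ((R' c).map D.r) + D.rm b ((g2 c).map D.r) + (N - 1) * D.rm b ((g1 c).map D.r) =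
        N * D.rm b ((h' c).map D.r) := by
      rw [← D.rm_pow hg10, ← D.rm_pow hh0, ← D.rm_mul hR0 hg20,
        ← D.rm_mul (mul_ne_zero hR0 hg20) (pow_ne_zero _ hg10), e2,
        D.rm_mul (C_ne_zero.2 hd0) (pow_ne_zero _ hh0)]
      have h4 := D.rm_le b (C (D.r (d' c)))
      rw [natDegree_C] at h4
      omega
    have h1 := G.cong c N hN0 hpN hl (R' c) hR hR0 b
    have e4 : (N : ℤ) ∣ (D.rm b ((R' c).map D.r) : ℤ) + D.rm b ((g2 c).map D.r) -
        D.rm b ((g1 c).map D.r) := by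
      refine ⟨(D.rm b ((h' c).map D.r) : ℤ) - D.rm b ((g1 c).map D.r), ?_⟩
      have e5 : (D.rm b ((R' c).map D.r) : ℤ) + D.rm b ((g2 c).map D.r) +
          ((N : ℤ) - 1) * D.rm b ((g1 c).map D.r) = N * D.rm b ((h' c).map D.r) := by
        have e6 : ((N - 1 : ℕ) : ℤ) = (N : ℤ) - 1 := by
          rw [Nat.cast_sub hN0]
          simp
        rw [← e6]
        exact_mod_cast e3
      linear_combination e5
    have h2 := dvd_add h1 e4
    have h3 : (N : ℤ) ∣ ((D.rm b (G.F.eval (c : (ZMod D.p)[X])) + D.rm b ((g2 c).map D.r) : ℕ) : ℤ) -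
        ((D.rm b (G.F.coeff n) + D.rm b ((g1 c).map D.r) : ℕ) : ℤ) := by
      have e7 : ((D.rm b (G.F.eval (c : (ZMod D.p)[X])) + D.rm b ((g2 c).map D.r) : ℕ) : ℤ) -
          ((D.rm b (G.F.coeff n) + D.rm b ((g1 c).map D.r) : ℕ) : ℤ) =
          ((D.rm b (G.F.eval (c : (ZMod D.p)[X])) : ℤ) - D.rm b (G.F.coeff n) -
            D.rm b ((R' c).map D.r)) + ((D.rm b ((R' c).map D.r) : ℤ) + D.rm b ((g2 c).map D.r) -
            D.rm b ((g1 c).map D.r)) := by
        push_cast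
        ring
      rw [e7]
      exact h2
    have hg1d : ((g1 c).map D.r).natDegree ≤ (G1 c).natDegree := by
      rw [← hg1, natDegree_map_eq_of_injective D.B.subtype_injective]
      exact natDegree_map_le
    have hg2d : ((g2 c).map D.r).natDegree ≤ (G2 c).natDegree := by
      rw [← hg2, natDegree_map_eq_of_injective D.B.subtype_injective]
      exact natDegree_map_le
    have hsum : (G1 c).natDegree + (G2 c).natDegree ≤ s0 := by
      rw [hs0]
      exact Finset.single_le_sum (f := fun c => (G1 c).natDegree + (G2 c).natDegree)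
        (fun _ _ => Nat.zero_le _) (Finset.mem_range.2 hc)
    have b1 := (D.rm_le b (G.F.eval (c : (ZMod D.p)[X]))).trans (G.eval_deg W c)
    have b2 := (D.rm_le b (G.F.coeff n)).trans (G.bd _)
    have b3 := (D.rm_le b ((g1 c).map D.r)).trans hg1d
    have b4 := (D.rm_le b ((g2 c).map D.r)).trans hg2d
    have h8 := Int.eq_zero_of_abs_lt_dvd h3 (by
      rw [abs_lt, hN]
      push_cast
      constructor <;> omega)
    omega
  choose κ hκ hprop using fun c : {c // c < m} => hprop c c.2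
  -- the relation
  have hrel : ∑ c ∈ S, C (w' c) * (g1 c * ∏ c' ∈ (Finset.range m).erase c, g2 c') = 0 := by
    apply Polynomial.map_injective D.B.subtype D.B.subtype_injective
    rw [Polynomial.map_zero, ← hw, Polynomial.map_sum]
    refine Finset.sum_congr rfl fun c hc => ?_
    obtain ⟨-, -, hg1, -, -, -, -, -, -, -, hwc, -⟩ := hL c (hSm c hc)
    rw [Polynomial.map_mul, Polynomial.map_mul, Polynomial.map_C, Subring.coe_subtype, hwc, hg1,
      Polynomial.map_prod]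
    congr 2
    refine Finset.prod_congr rfl fun c' hc' => ?_
    exact (hL c' (Finset.mem_range.1 (Finset.mem_of_mem_erase hc'))).2.2.2.2.1
  have hrel2 := congrArg (Polynomial.map D.r) hrel
  rw [Polynomial.map_zero, Polynomial.map_sum] at hrel2
  set Pr : (ZMod D.p)[X] := ∏ c ∈ Finset.range m, (g2 c).map D.r with hPr
  have hPr0 : Pr ≠ 0 := Finset.prod_ne_zero_iff.2 fun c hc =>
    (hL c (Finset.mem_range.1 hc)).2.2.2.2.2.1
  set κ' : ℕ → ZMod D.p := fun c => if hc : c < m then κ ⟨c, hc⟩ else 1 with hκ'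
  have hκ0 : ∀ c, κ' c ≠ 0 := by
    intro c
    rw [hκ']
    dsimp only
    split_ifs with hc
    · exact hκ _
    · exact one_ne_zero
  have hprop' : ∀ c < m, G.F.eval (c : (ZMod D.p)[X]) * (g2 c).map D.r =
      C (κ' c) * (G.F.coeff n * (g1 c).map D.r) := by
    intro c hc
    have h1 := hprop ⟨c, hc⟩
    rw [hκ']
    dsimp only
    rw [dif_pos hc]
    exact h1
  have hsum0 : ∑ c ∈ S, C (D.r (w' c) * (κ' c)⁻¹) * G.F.eval (c : (ZMod D.p)[X]) = 0 := by
    have h1 : Pr * ∑ c ∈ S, C (D.r (w' c) * (κ' c)⁻¹) * G.F.eval (c : (ZMod D.p)[X]) = 0 := by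
      have h2 : G.F.coeff n * ∑ c ∈ S, (C (w' c) * (g1 c * ∏ c' ∈ (Finset.range m).erase c, g2 c')).map
          D.r = 0 := by rw [hrel2, mul_zero]
      rw [← h2, Finset.mul_sum, Finset.mul_sum]
      refine Finset.sum_congr rfl fun c hc => ?_
      have hcm := hSm c hc
      rw [hPr, ← Finset.mul_prod_erase _ _ (Finset.mem_range.2 hcm), Polynomial.map_mul,
        Polynomial.map_mul, Polynomial.map_C, Polynomial.map_prod, C_mul]
      have h3 := hprop' c hcm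
      have h4 : C (κ' c)⁻¹ * (G.F.eval (c : (ZMod D.p)[X]) * (g2 c).map D.r) =
          G.F.coeff n * (g1 c).map D.r := by
        rw [h3, ← mul_assoc, ← C_mul, inv_mul_cancel₀ (hκ0 c), C_1, one_mul]
      linear_combination (C (D.r (w' c)) *
        ∏ x ∈ (Finset.range m).erase c, Polynomial.map D.r (g2 x)) * h4
    exact (mul_eq_zero.1 h1).resolve_left hPr0
  have hfin : ∀ j ≤ n, ∑ c ∈ S, (D.r (w' c) * (κ' c)⁻¹) * (c : ZMod D.p) ^ j = 0 := by
    refine G.ind (fun j => ∑ c ∈ S, (D.r (w' c) * (κ' c)⁻¹) * (c : ZMod D.p) ^ j) ?_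
    rw [← hsum0]
    have e : ∀ c ∈ S, C (D.r (w' c) * (κ' c)⁻¹) * G.F.eval (c : (ZMod D.p)[X]) =
        ∑ j ∈ Finset.range (n + 1), C ((D.r (w' c) * (κ' c)⁻¹) * (c : ZMod D.p) ^ j) *
          G.F.coeff j := by
      intro c _
      have e1 : (c : (ZMod D.p)[X]) = C (c : ZMod D.p) := by simp
      rw [e1, eval_C_eq G.deg, Finset.mul_sum]
      refine Finset.sum_congr rfl fun j _ => ?_
      rw [← mul_assoc, ← C_mul]
    rw [Finset.sum_congr rfl e, Finset.sum_comm]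
    refine Finset.sum_congr rfl fun j _ => ?_
    rw [map_sum, Finset.sum_mul]
  have hz := vdm (κ := ZMod D.p) hS (fun c hc c' hc' he => by
    have h1 := hSm c hc
    have h2 := hSm c' hc'
    rw [ZMod.natCast_eq_natCast_iff'] at he
    rw [Nat.mod_eq_of_lt (by omega), Nat.mod_eq_of_lt (by omega)] at he
    exact he) hfin c0 hc0
  rcases mul_eq_zero.1 hz with h1 | h1
  · exact (hL c0 (hSm c0 hc0)).2.2.2.2.2.2.2.2.2.2.2 hwc0 h1
  · exact inv_ne_zero (hκ0 c0) h1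

/-- **E1** -/
theorem main (hCNG : S_CNG) (hMASN : S_MASN) (hLFT : S_LFT) (hINT : S_INT) (hNMR : S_NMR) :
    S_E1 := by
  intro K k _ _ _ _ hess W F0 _ _ _ q hKum hint y hyt hy
  have hyc : ∀ c : ℕ, y - (c : F0) ≠ 0 := by
    intro c h
    rw [sub_eq_zero] at h
    apply hyt
    rw [h]
    exact isAlgebraic_natCast c
  have he : 0 < W.f.natDegree.factorial := Nat.factorial_pos _
  have hA : ∀ c N : ℕ, ∃ A : K[X][X], 0 < N →
      ClsC W (W.f.natDegree.factorial * N) A (y - (c : F0)) := by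
    intro c N
    by_cases hN : 0 < N
    · obtain ⟨A, hA⟩ := hKum (y - (c : F0)) (hyc c) _ (Nat.mul_pos he hN)
      exact ⟨A, fun _ => hA⟩
    · exact ⟨0, fun h => absurd h hN⟩
  choose A hA using hA
  have hR : ∀ c N, 0 < N → resultant W.f (A c N) ≠ 0 := fun c N hN => res_ne W hNMR (hA c N hN).1
  obtain ⟨B0, hD⟩ := exists_rdata W q hCNG hMASN hNMR hy hA
  have hG : ∀ c : ℕ, ∃ G1 G2 : K[X], G1 ≠ 0 ∧ G2 ≠ 0 ∧ ∀ N : ℕ, 0 < N →
      ∃ (d : K) (h : K[X]), d ≠ 0 ∧ h ≠ 0 ∧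
        resultant W.f (A c N) * G2 * G1 ^ (N - 1) = C d * h ^ N := by
    intro c
    refine hINT K (fun N => resultant W.f (A c N)) B0 (fun N hN => hR c N hN) ?_ ?_
    · intro N M hN hM ρ
      exact cls_compat2 W hNMR hint (hyc c) he hN (clsC_of_mul W (hA c (N * M) (Nat.mul_pos hN hM)))
        (hA c N hN) ρ
    · intro N hN ρ
      exact small2 W hLFT hR hD c hN ρ
  choose G1 G2 hG1 hG2 hG using hG
  refine ⟨A, G1, G2, fun c _ => ⟨hG1 c, hG2 c⟩, fun c _ N hN => ⟨hA c N hN, hG c N hN⟩, ?_⟩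
  intro S hSm hS w hw
  exact indep2 W hR hD _ G1 G2 hG1 hG2 hG S hSm hS w hw

end Pool.Agent.Helper47.FX
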