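import Pool.Agent.Helper39.FX.Defs

/-!
# The norm of `V Z - U` (not a result)
-/

set_option autoImplicit false

open Polynomial

namespace Pool.Agent.Helper47.FX

open Pool.Agent.Helper39.FX

section

variable {R : Type} [CommRing R] [IsDomain R] {f U V : R[X][X]}

/-- evaluation -/
lemma chi_eval (hN : S_NMR) (hf : f.Monic) (c : R[X]) :
    (chi f U V).eval c = resultant f (C c * V - U) := by
  have h := hN.1 R[X][X] R[X] (evalRingHom c) (f.map C) (C X * V.map C - U.map C) (hf.map _)
  rw [coe_evalRingHom] at h
  unfold chi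
  rw [← h]
  have e : ∀ A : R[X][X], (A.map (C : R[X] →+* R[X][X])).map (evalRingHom c) = A := by
    intro A
    rw [Polynomial.map_map]
    have h1 : (evalRingHom c).comp (C : R[X] →+* R[X][X]) = RingHom.id _ := by
      ext x <;> simp
    rw [h1, Polynomial.map_id]
  rw [Polynomial.map_sub, Polynomial.map_mul, e, e, e, Polynomial.map_C, coe_evalRingHom, eval_X]

omit [IsDomain R] in
lemma res_one (_ : f.Monic) : resultant f 1 = 1 := by
  rw [natDegree_one, resultant_one_right, pow_zero]

lemma res_pow (hN : S_NMR) (hf : f.Monic) (g : R[X][X]) (m : ℕ) :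
    resultant f (g ^ m) = resultant f g ^ m := by
  induction m with
  | zero => rw [pow_zero, pow_zero, res_one hf]
  | succ m ih => rw [pow_succ, hN.2.2.1 R[X] f _ _ hf, ih, pow_succ]

/-- change of sign -/
lemma res_neg (hN : S_NMR) (hf : f.Monic) (g : R[X][X]) :
    ∃ e : R[X], e * e = 1 ∧ resultant f (-g) = e * resultant f g := by
  refine ⟨resultant f (-1), ?_, ?_⟩
  · rw [← hN.2.2.1 R[X] f _ _ hf, neg_one_mul, neg_neg, res_one hf]
  · rw [← hN.2.2.1 R[X] f _ _ hf, neg_one_mul]

lemma exists_fin {α : Type} (m : Multiset α) (n : ℕ) (h : m.card = n) :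
    ∃ s : Fin n → α, m = Multiset.map s Finset.univ.val := by
  have h2 : m.toList.length = n := by rw [Multiset.length_toList, h]
  subst h2
  refine ⟨m.toList.get, ?_⟩
  rw [Fin.univ_val_map, List.ofFn_get, Multiset.coe_toList]

/-- the degree and the leading coefficient of the norm -/
lemma chi_degree (hN : S_NMR) (hf : f.Monic) :
    (chi f U V).natDegree ≤ f.natDegree ∧ (chi f U V).coeff f.natDegree = resultant f V := by
  classical
  let Q := FractionRing R[X]
  let Om := AlgebraicClosure Q
  let ι : R[X] →+* Om := (algebraMap Q Om).comp (algebraMap R[X] Q)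
  have hι : Function.Injective ι :=
    (algebraMap Q Om).injective.comp (IsFractionRing.injective R[X] Q)
  have hfm : (f.map ι).Monic := hf.map ι
  have hsp := IsAlgClosed.splits (f.map ι)
  have hcard : (f.map ι).roots.card = f.natDegree := by
    rw [← hf.natDegree_map ι]
    exact IsAlgClosed.card_roots_eq_natDegree
  obtain ⟨s, hs⟩ : ∃ s : Fin f.natDegree → Om, f.map ι = ∏ j, (X - C (s j)) := by
    have h1 := hsp.eq_prod_roots_of_monic hfm
    obtain ⟨s, hs⟩ := exists_fin _ _ hcard
    refine ⟨s, ?_⟩
    rw [h1, hs, Multiset.map_map]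
    rfl
  have hres : ι (resultant f V) = ∏ j, (V.map ι).eval (s j) := by
    rw [← hN.1 R[X] Om ι f V hf, hs, hN.2.1 Om]
  have hchi : (chi f U V).map ι =
      ∏ j, (X * C ((V.map ι).eval (s j)) - C ((U.map ι).eval (s j))) := by
    have e : ∀ A : R[X][X], (A.map (C : R[X] →+* R[X][X])).map (mapRingHom ι) = (A.map ι).map C := by
      intro A
      rw [Polynomial.map_map, Polynomial.map_map]
      congr 1
      ext x <;> simp
    have h1 := hN.1 R[X][X] Om[X] (mapRingHom ι) (f.map C) (C X * V.map C - U.map C) (hf.map _)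
    rw [coe_mapRingHom] at h1
    unfold chi
    have e2 : (f.map ι).map (C : Om →+* Om[X]) = ∏ j, (X - C (C (s j))) := by
      rw [hs, Polynomial.map_prod]
      refine Finset.prod_congr rfl fun j _ => ?_
      rw [Polynomial.map_sub, Polynomial.map_X, Polynomial.map_C]
    rw [← h1, e, e2, Polynomial.map_sub, Polynomial.map_mul, e, e]
    rw [hN.2.1 Om[X]]
    refine Finset.prod_congr rfl fun j _ => ?_
    rw [eval_sub, eval_mul, Polynomial.map_C, eval_C, coe_mapRingHom, Polynomial.map_X]
    rw [eval_map, eval_map, eval₂_at_apply, eval₂_at_apply]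
  have hlin : ∀ j, (X * C ((V.map ι).eval (s j)) - C ((U.map ι).eval (s j)) : Om[X]).natDegree ≤ 1 := by
    intro j
    refine (natDegree_sub_le _ _).trans (max_le ?_ (by simp))
    exact (natDegree_mul_C_le _ _).trans natDegree_X_le
  constructor
  · rw [← natDegree_map_eq_of_injective hι, hchi]
    refine (natDegree_prod_le _ _).trans ?_
    refine (Finset.sum_le_card_nsmul _ _ 1 fun j _ => hlin j).trans ?_
    simp
  · apply hι
    rw [← coeff_map, hchi, hres]
    have h1 := coeff_prod_of_natDegree_le (s := (Finset.univ : Finset (Fin f.natDegree)))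
      (fun j => (X * C ((V.map ι).eval (s j)) - C ((U.map ι).eval (s j)) : Om[X])) 1
      (fun j _ => hlin j)
    rw [Finset.card_univ, Fintype.card_fin, mul_one] at h1
    rw [h1]
    refine Finset.prod_congr rfl fun j _ => ?_
    rw [coeff_sub, coeff_X_mul, coeff_C_zero, coeff_C_succ, sub_zero]

end

end Pool.Agent.Helper47.FX
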