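import Pool.Agent.Helper47.FX.Chi
import Pool.Agent.Helper39.FT.Fin2

/-!
# Classes of functions over the function field of a curve (not a result)
-/

set_option autoImplicit false
set_option linter.unusedSectionVars false

open Polynomial

namespace Pool.Agent.Helper47.FX

open Pool.Agent.TH954 Pool.Agent.Y791.BF Pool.Agent.Helper39.FT Pool.Agent.Helper39.FX

variable {K k : Type} [Field K] [CharZero K] [hess : Algebra.EssFiniteType ℚ K] [Field k]
  {F0 : Type} [Field F0] [Algebra k F0] (W : Crv K k)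

lemma irr_f : Irreducible W.f :=
  W.monic.irreducible_of_irreducible_map (mapRingHom (algebraMap K (AlgebraicClosure K))) _ W.irr

lemma res_ne (hN : S_NMR) {A : K[X][X]} (hA : ev2 W.c W.T W.α A ≠ 0) : resultant W.f A ≠ 0 := by
  refine hN.2.2.2.2 K W.f A W.monic (irr_f W) ?_
  rintro ⟨B, rfl⟩
  apply hA
  rw [map_mul, W.root, zero_mul]

lemma ev2_C {d : K[X]} (hd : d ≠ 0) : ev2 W.c W.T W.α (C d) ≠ 0 := by
  intro h
  obtain ⟨B, hB⟩ := W.min _ h
  have h1 : B ≠ 0 := by
    rintro rfl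
    rw [mul_zero, C_eq_zero] at hB
    exact hd hB
  have h2 := congrArg natDegree hB
  rw [natDegree_C, natDegree_mul W.monic.ne_zero h1] at h2
  have := W.pos
  omega

lemma ev2_C_eq (d : K[X]) : ev2 W.c W.T W.α (C d) = eval₂ W.c W.T d := by
  unfold ev2
  rw [coe_eval₂RingHom, eval₂_C, coe_eval₂RingHom]

/-- two classes of a function -/
lemma cls_cls2 (hint : ∀ x : F0, IsAlgebraic k x → ∃ c, algebraMap k F0 c = x)
    {x : F0} (hx : x ≠ 0) {N : ℕ} (hN : 0 < N) {A B : K[X][X]} (hA : ClsC W N A x)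
    (hB : ClsC W N B x) :
    ∃ (P : K[X][X]) (d : K[X]), d ≠ 0 ∧ ev2 W.c W.T W.α P ≠ 0 ∧
      W.f ∣ A * (C d) ^ N - B * P ^ N := by
  obtain ⟨hA0, u, hu⟩ := hA
  obtain ⟨hB0, v, hv⟩ := hB
  have hinj : Function.Injective (algebraMap k F0) := (algebraMap k F0).injective
  set a := ev2 W.c W.T W.α A with ha
  set b := ev2 W.c W.T W.α B with hb
  have ha' : algebraMap k F0 a ≠ 0 := (_root_.map_ne_zero _).2 hA0
  have hb' : algebraMap k F0 b ≠ 0 := (_root_.map_ne_zero _).2 hB0
  have hu0 : u ≠ 0 := by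
    rintro rfl
    rw [zero_pow hN.ne', mul_zero] at hu
    exact hx hu
  have hv0 : v ≠ 0 := by
    rintro rfl
    rw [zero_pow hN.ne', mul_zero] at hv
    exact hx hv
  have e : algebraMap k F0 a = algebraMap k F0 b * (v / u) ^ N := by
    rw [div_pow, ← mul_div_assoc, ← hv, hu, mul_div_assoc, div_self (pow_ne_zero _ hu0), mul_one]
  have e2 : (v / u) ^ N = algebraMap k F0 (a / b) := by
    rw [map_div₀, e, mul_div_cancel_left₀ _ hb']
  have halg : IsAlgebraic k (v / u) := by
    have h1 : IsAlgebraic k ((v / u) ^ N) := by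
      rw [e2]
      exact isAlgebraic_algebraMap _
    exact h1.of_pow hN
  obtain ⟨r, hr⟩ := hint _ halg
  have hr0 : r ≠ 0 := by
    rintro rfl
    rw [map_zero] at hr
    exact div_ne_zero hv0 hu0 hr.symm
  have e3 : a = b * r ^ N := by
    apply hinj
    rw [map_mul, map_pow, hr, e]
  obtain ⟨P, d, hd, hP⟩ := W.gen r
  have hd' : eval₂ W.c W.T d ≠ 0 := by
    rw [← ev2_C_eq]
    exact ev2_C W hd
  refine ⟨P, d, hd, ?_, W.min _ ?_⟩
  · rw [← hP]
    exact mul_ne_zero hr0 hd'
  · rw [map_sub, map_mul, map_mul, map_pow, map_pow, ev2_C_eq, ← hP, ← ha, ← hb, e3, mul_pow]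
    ring

lemma clsC_of_mul {x : F0} {e N M : ℕ} {A : K[X][X]} (h : ClsC W (e * (N * M)) A x) :
    ClsC W (e * N) A x := by
  obtain ⟨h0, g, hg⟩ := h
  refine ⟨h0, g ^ M, ?_⟩
  rw [hg, ← pow_mul]
  congr 2
  ring

/-- the multiplicities of the norms of the classes are compatible -/
lemma cls_compat2 (hNMR : S_NMR)
    (hint : ∀ x : F0, IsAlgebraic k x → ∃ c, algebraMap k F0 c = x)
    {x : F0} (hx : x ≠ 0) {e N : ℕ} (he : 0 < e) (hN : 0 < N) {A B : K[X][X]}
    (hA : ClsC W (e * N) A x) (hB : ClsC W (e * N) B x) (ρ : AlgebraicClosure K) :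
    (N : ℤ) ∣ (Types.mu (resultant W.f A) ρ : ℤ) - Types.mu (resultant W.f B) ρ := by
  obtain ⟨P, d, hd, hP, hdvd⟩ := cls_cls2 W hint hx (Nat.mul_pos he hN) hA hB
  have h1 := hNMR.2.2.2.1 K[X] W.f _ _ W.monic hdvd
  rw [hNMR.2.2.1 K[X] W.f _ _ W.monic, hNMR.2.2.1 K[X] W.f _ _ W.monic,
    res_pow hNMR W.monic, res_pow hNMR W.monic] at h1
  have hdn := res_ne W hNMR (ev2_C W hd)
  have hPn := res_ne W hNMR hP
  have h2 : Types.mu (resultant W.f A * resultant W.f (C d) ^ (e * N)) ρ =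
      Types.mu (resultant W.f B * resultant W.f P ^ (e * N)) ρ := by rw [h1]
  rw [mu_mul (res_ne W hNMR hA.1) (pow_ne_zero _ hdn), mu_mul (res_ne W hNMR hB.1)
    (pow_ne_zero _ hPn), mu_pow hdn, mu_pow hPn] at h2
  refine ⟨e * ((Types.mu (resultant W.f P) ρ : ℤ) - Types.mu (resultant W.f (C d)) ρ), ?_⟩
  have h3 : (Types.mu (resultant W.f A) ρ : ℤ) + e * N * Types.mu (resultant W.f (C d)) ρ =
      Types.mu (resultant W.f B) ρ + e * N * Types.mu (resultant W.f P) ρ := by exact_mod_cast h2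
  linear_combination h3

/-! ### Reductions -/

open scoped Classical in
/-- the coefficients of a polynomial in two variables -/
noncomputable def coef2 (A : K[X][X]) : Finset K := A.support.biUnion fun i => coef (A.coeff i)

lemma exists_lift2 (D : RSys K) {A : K[X][X]} {Z : Finset K} (hZ : coef2 A ⊆ Z)
    (h : GoodZ D Z) : ∃ A' : D.B[X][X], mp D.B.subtype A' = A := by
  classical
  have h1 : A ∈ Polynomial.lifts (mapRingHom D.B.subtype) := by
    rw [Polynomial.lifts_iff_coeff_lifts]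
    intro i
    have h2 : A.coeff i ∈ Polynomial.lifts D.B.subtype := by
      rw [Polynomial.lifts_iff_coeff_lifts]
      intro j
      by_cases h0 : (A.coeff i).coeff j = 0
      · exact ⟨0, by rw [h0, map_zero]⟩
      · have h3 : (A.coeff i).coeff j ∈ coef2 A := by
          unfold coef2
          rw [Finset.mem_biUnion]
          refine ⟨i, ?_, ?_⟩
          · rw [mem_support_iff]
            intro h4
            rw [h4, coeff_zero] at h0
            exact h0 rfl
          · exact Finset.mem_image_of_mem _ (mem_support_iff.2 h0)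
        obtain ⟨h4, -⟩ := h _ (hZ h3) h0
        exact ⟨⟨_, h4⟩, rfl⟩
    obtain ⟨P, hP⟩ := h2
    exact ⟨P, hP⟩
  obtain ⟨A', hA'⟩ := h1
  exact ⟨A', hA'⟩

/-- the norms of the reductions -/
lemma red_res (hNMR : S_NMR) (D : RSys K) {f A : D.B[X][X]} (hf : f.Monic) :
    (resultant f A).map D.B.subtype = resultant (mp D.B.subtype f) (mp D.B.subtype A) ∧
    (resultant f A).map D.r = resultant (mp D.r f) (mp D.r A) := by
  have h1 := hNMR.1 D.B[X] K[X] (mapRingHom D.B.subtype) f A hf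
  have h2 := hNMR.1 D.B[X] (ZMod D.p)[X] (mapRingHom D.r) f A hf
  exact ⟨h1.symm, h2.symm⟩

include hess in
lemma red_res_ne (hNMR : S_NMR) (D : RSys K) {f A : D.B[X][X]} (hf : f.Monic) {R : K[X]}
    (hR : resultant (mp D.B.subtype f) (mp D.B.subtype A) = R) (hR0 : R ≠ 0) {Z : Finset K}
    (hZ : coef R ⊆ Z) (h : GoodZ D Z) : resultant (mp D.r f) (mp D.r A) ≠ 0 := by
  obtain ⟨R', hR', hR0'⟩ := goodP_coef D hR0 hZ h
  obtain ⟨h1, h2⟩ := red_res hNMR D (A := A) hf
  have h3 : R' = resultant f A := by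
    apply Polynomial.map_injective D.B.subtype D.B.subtype_injective
    rw [hR', h1, hR]
  rw [← h2, ← h3]
  exact hR0'

/-- the coefficients are independent over the constants -/
lemma wr_indep {κ : Type} [Field κ] {n : ℕ} {F : κ[X][X]} (hw : wr n F ≠ 0) {a : ℕ → κ}
    (h : ∑ j ∈ Finset.range (n + 1), C (a j) * F.coeff j = 0) : ∀ j ≤ n, a j = 0 := by
  have h1 : (Matrix.of fun i j : Fin (n + 1) => derivative^[(i : ℕ)] (F.coeff (j : ℕ))).mulVec
      (fun j => C (a j)) = 0 := by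
    funext i
    rw [Matrix.mulVec, dotProduct]
    simp only [Matrix.of_apply, Pi.zero_apply]
    have h2 : ∀ m : ℕ, derivative^[m] (∑ j ∈ Finset.range (n + 1), C (a j) * F.coeff j) =
        ∑ j ∈ Finset.range (n + 1), C (a j) * derivative^[m] (F.coeff j) := by
      intro m
      rw [iterate_derivative_sum]
      exact Finset.sum_congr rfl fun j _ => iterate_derivative_C_mul _ _ _
    have h3 := h2 i
    rw [h, iterate_map_zero, Finset.sum_range] at h3
    rw [h3]
    exact Finset.sum_congr rfl fun j _ => mul_comm _ _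
  have h2 := Matrix.eq_zero_of_mulVec_eq_zero hw h1
  intro j hj
  have h3 := congrFun h2 ⟨j, Nat.lt_succ_of_le hj⟩
  exact C_eq_zero.1 h3

lemma eval_C_eq {κ : Type} [Field κ] {n : ℕ} {F : κ[X][X]} (hF : F.natDegree ≤ n) (c : κ) :
    F.eval (C c) = ∑ j ∈ Finset.range (n + 1), C (c ^ j) * F.coeff j := by
  rw [eval_eq_sum_range' (n := n + 1) (Nat.lt_succ_of_le hF)]
  refine Finset.sum_congr rfl fun j _ => ?_
  rw [C_pow, mul_comm]

lemma wr_eval_ne {κ : Type} [Field κ] {n : ℕ} {F : κ[X][X]} (hw : wr n F ≠ 0)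
    (hF : F.natDegree ≤ n) (c : ℕ) : F.eval (c : κ[X]) ≠ 0 := by
  intro h
  have e : (c : κ[X]) = C (c : κ) := by simp
  rw [e, eval_C_eq hF] at h
  have h1 := wr_indep hw h 0 (Nat.zero_le _)
  rw [pow_zero] at h1
  exact one_ne_zero h1

include hess in
lemma rm_unit {D : RSys K} {e P : (ZMod D.p)[X]} (he : e * e = 1) (b : D.E) (hP : P ≠ 0) :
    D.rm b (e * P) = D.rm b P := by
  have he0 : e ≠ 0 := by
    rintro rfl
    rw [mul_zero] at he
    exact zero_ne_one he
  rw [D.rm_mul he0 hP]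
  have h1 : D.rm b (e * e) = 0 := by
    rw [he]
    unfold RSys.rm
    rw [Polynomial.map_one, rootMultiplicity_eq_zero]
    simp
  rw [D.rm_mul he0 he0] at h1
  omega

end Pool.Agent.Helper47.FX
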