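import Pool.Agent.Helper47.FX.Cls

/-!
# The data of a good reduction over the function field of a curve (not a result)
-/

set_option autoImplicit false
set_option linter.unusedSectionVars false

open Polynomial

namespace Pool.Agent.Helper47.FX

open Pool.Agent.TH954 Pool.Agent.Y791.BF Pool.Agent.Helper39.FT Pool.Agent.Helper39.FX

variable {K k : Type} [Field K] [CharZero K] [hess : Algebra.EssFiniteType ℚ K] [Field k]
  {F0 : Type} [Field F0] [CharZero F0] [Algebra k F0] (W : Crv K k)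
  (q : ∀ i : PlF k, Plc k F0 i.Lv)

/-- the data of a good reduction -/
structure RData (D : RSys K) (A : ℕ → ℕ → K[X][X]) (B0 : ℕ) where
  F : (ZMod D.p)[X][X]
  ind : ∀ a : ℕ → ZMod D.p,
    ∑ j ∈ Finset.range (W.f.natDegree + 1), C (a j) * F.coeff j = 0 → ∀ j ≤ W.f.natDegree, a j = 0
  deg : F.natDegree ≤ W.f.natDegree
  lead : F.coeff W.f.natDegree ≠ 0
  bd : ∀ j, (F.coeff j).natDegree ≤ B0
  cong : ∀ c N : ℕ, 0 < N → ¬ D.p ∣ N → (∃ A' : D.B[X][X], mp D.B.subtype A' = A c N) →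
    ∀ R' : D.B[X], R'.map D.B.subtype = resultant W.f (A c N) → R'.map D.r ≠ 0 →
    ∀ b : D.E, (N : ℤ) ∣ (D.rm b (F.eval (c : (ZMod D.p)[X])) : ℤ) - D.rm b (F.coeff W.f.natDegree) -
      D.rm b (R'.map D.r)

lemma RData.eval_ne {D : RSys K} {A : ℕ → ℕ → K[X][X]} {B0 : ℕ} (G : RData W D A B0) (c : ℕ) :
    G.F.eval (c : (ZMod D.p)[X]) ≠ 0 := by
  intro h
  have e : (c : (ZMod D.p)[X]) = C (c : ZMod D.p) := by simp
  rw [e, eval_C_eq G.deg] at h
  have h1 := G.ind _ h 0 (Nat.zero_le _)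
  rw [pow_zero] at h1
  exact one_ne_zero h1

lemma RData.eval_deg {D : RSys K} {A : ℕ → ℕ → K[X][X]} {B0 : ℕ} (G : RData W D A B0) (c : ℕ) :
    (G.F.eval (c : (ZMod D.p)[X])).natDegree ≤ B0 := by
  have e : (c : (ZMod D.p)[X]) = C (c : ZMod D.p) := by simp
  rw [e, eval_C_eq G.deg]
  refine natDegree_sum_le_of_forall_le _ _ fun j _ => ?_
  exact (natDegree_C_mul_le _ _).trans (G.bd j)

include hess in
theorem exists_rdata (hCNG : S_CNG) (hMASN : S_MASN) (hNMR : S_NMR) {y : F0}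
    (hy : AllGoodC W q y) {A : ℕ → ℕ → K[X][X]}
    (hA : ∀ c N : ℕ, 0 < N → ClsC W (W.f.natDegree.factorial * N) (A c N) (y - (c : F0))) :
    ∃ B0 : ℕ, ∀ (Z : Finset K) (n0 : ℕ), ∃ D : RSys K, n0 < D.p ∧ GoodZ D Z ∧
      Nonempty (RData W D A B0) := by
  classical
  set n := W.f.natDegree with hn
  obtain ⟨N1, bd, hN1, hM⟩ := hMASN n W.pos
  set h := (Finset.range (n + 2)).sup fun c => (resultant W.f (A c N1)).natDegree with hh
  refine ⟨bd h, fun Z n0 => ?_⟩
  obtain ⟨D, hDp, hDZ, f', U, V, S, hf', hmon, hS, hV, hw, hpts⟩ :=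
    hy (Z ∪ (Finset.range (n + 2)).biUnion fun c => coef2 (A c N1) ∪ coef (resultant W.f (A c N1)))
      (n0 + n + N1 + 2)
  have hZ1 : ∀ c < n + 2, coef2 (A c N1) ⊆ Z ∪ (Finset.range (n + 2)).biUnion fun c =>
      coef2 (A c N1) ∪ coef (resultant W.f (A c N1)) := by
    intro c hc z hz
    exact Finset.mem_union_right _ (Finset.mem_biUnion.2
      ⟨c, Finset.mem_range.2 hc, Finset.mem_union_left _ hz⟩)
  have hZ2 : ∀ c < n + 2, coef (resultant W.f (A c N1)) ⊆ Z ∪ (Finset.range (n + 2)).biUnion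
      fun c => coef2 (A c N1) ∪ coef (resultant W.f (A c N1)) := by
    intro c hc z hz
    exact Finset.mem_union_right _ (Finset.mem_biUnion.2
      ⟨c, Finset.mem_range.2 hc, Finset.mem_union_right _ hz⟩)
  have hdf : f'.natDegree = n := by
    rw [hn, ← hf']
    exact (hmon.natDegree_map _).symm
  have hmr : (mp D.r f').Monic := hmon.map _
  have hdr : (mp D.r f').natDegree = n := by
    rw [← hdf]
    exact hmon.natDegree_map _
  set Φ := chi (mp D.r f') U V with hΦ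
  have hcd := chi_degree (f := mp D.r f') (U := U) (V := V) hNMR hmr
  have hd1 : Φ.natDegree ≤ n := hcd.1.trans hdr.le
  have hd2 : Φ.coeff n = resultant (mp D.r f') V := by
    rw [← hcd.2, hΦ, hdr]
  have hlead : Φ.coeff n ≠ 0 := by
    rw [hd2]
    exact hV
  -- the sign
  have hsgn : ∀ c : ℕ, ∃ e : (ZMod D.p)[X], e * e = 1 ∧
      Φ.eval (c : (ZMod D.p)[X]) = e * resultant (mp D.r f') (U - (c : (ZMod D.p)[X][X]) * V) := by
    intro c
    obtain ⟨e, he, h1⟩ := res_neg hNMR hmr (U - (c : (ZMod D.p)[X][X]) * V)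
    refine ⟨e, he, ?_⟩
    rw [hΦ, chi_eval hNMR hmr, ← h1, neg_sub]
    congr 2
  have hUV : ∀ c : ℕ, resultant (mp D.r f') (U - (c : (ZMod D.p)[X][X]) * V) ≠ 0 := by
    intro c hc
    obtain ⟨e, -, h1⟩ := hsgn c
    rw [hc, mul_zero] at h1
    exact wr_eval_ne hw hd1 c h1
  have key : ∀ c N : ℕ, 0 < N → ¬ D.p ∣ N → ∀ A' : D.B[X][X], mp D.B.subtype A' = A c N →
      resultant (mp D.r f') (mp D.r A') ≠ 0 → ∀ b : D.E,
      (N : ℤ) ∣ (D.rm b (Φ.eval (c : (ZMod D.p)[X])) : ℤ) - D.rm b (Φ.coeff n) -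
        D.rm b (resultant (mp D.r f') (mp D.r A')) := by
    intro c N hN hpN A' hA' hne b
    have h1 := hCNG K k F0 W q D y f' U V S hf' hmon hS hV hpts c N A' hN hpN (by omega) (hUV c) hne
      (by rw [hA']; exact hA c N hN) b
    obtain ⟨e, he, h2⟩ := hsgn c
    rw [h2, rm_unit he b (hUV c), hd2]
    exact h1
  -- the bound
  have hA' : ∀ c : Fin (n + 2), ∃ A' : D.B[X][X], mp D.B.subtype A' = A c N1 := fun c =>
    exists_lift2 D (hZ1 c c.2) hDZ
  choose A' hA' using hA'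
  have hAne : ∀ c : Fin (n + 2), resultant (mp D.r f') (mp D.r (A' c)) ≠ 0 := by
    intro c
    refine red_res_ne hNMR D hmon (R := resultant W.f (A c N1)) ?_ (res_ne W hNMR (hA c N1 hN1).1)
      (hZ2 c c.2) hDZ
    rw [hf', hA']
  have hpN1 : ¬ D.p ∣ N1 := fun hd => absurd (Nat.le_of_dvd hN1 hd) (by omega)
  obtain ⟨g, F1, hg, hF, hb⟩ := hM D.p (by omega) Φ hd1 hlead hw
    (fun c => resultant (mp D.r f') (mp D.r (A' c))) h hAne (by
      intro c
      obtain ⟨h1, h2⟩ := red_res hNMR D (A := A' c) hmon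
      change (resultant (mp D.r f') (mp D.r (A' c))).natDegree ≤ h
      rw [← h2]
      refine natDegree_map_le.trans ?_
      rw [← natDegree_map_eq_of_injective D.B.subtype_injective, h1, hf', hA']
      exact Finset.le_sup (f := fun c => (resultant W.f (A c N1)).natDegree)
        (Finset.mem_range.2 c.2)) (fun c b => key c N1 hN1 hpN1 (A' c) (hA' c) (hAne c) b)
  have hev : ∀ c : ℕ, Φ.eval (c : (ZMod D.p)[X]) = g * F1.eval (c : (ZMod D.p)[X]) := by
    intro c
    rw [hF, eval_mul, eval_C]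
  have hco : ∀ j : ℕ, Φ.coeff j = g * F1.coeff j := by
    intro j
    rw [hF, coeff_C_mul]
  have hl1 : F1.coeff n ≠ 0 := by
    intro h0
    apply hlead
    rw [hco, h0, mul_zero]
  refine ⟨D, by omega, fun z hz => hDZ z (Finset.mem_union_left _ hz), ⟨⟨F1, ?_, ?_, hl1, hb, ?_⟩⟩⟩
  · intro a ha
    refine wr_indep hw ?_
    have h1 : ∑ j ∈ Finset.range (n + 1), C (a j) * Φ.coeff j =
        g * ∑ j ∈ Finset.range (n + 1), C (a j) * F1.coeff j := by
      rw [Finset.mul_sum]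
      refine Finset.sum_congr rfl fun j _ => ?_
      rw [hco]
      ring
    rw [h1, ha, mul_zero]
  · rw [hF, natDegree_C_mul hg] at hd1
    exact hd1
  · intro c N hN hpN hlift R' hR' hR0 b
    obtain ⟨B, hB⟩ := hlift
    obtain ⟨h1, h2⟩ := red_res hNMR D (A := B) hmon
    have h3 : R' = resultant f' B := by
      apply Polynomial.map_injective D.B.subtype D.B.subtype_injective
      rw [hR', h1, hf', hB]
    have h4 : R'.map D.r = resultant (mp D.r f') (mp D.r B) := by rw [h3, h2]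
    have h5 := key c N hN hpN B hB (by rw [← h4]; exact hR0) b
    have h6 : F1.eval (c : (ZMod D.p)[X]) ≠ 0 := by
      intro h0
      apply wr_eval_ne hw hd1 c
      rw [hev, h0, mul_zero]
    rw [hev, hco, D.rm_mul hg h6, D.rm_mul hg hl1, ← h4] at h5
    have e : ((D.rm b g + D.rm b (F1.eval (c : (ZMod D.p)[X])) : ℕ) : ℤ) -
        ((D.rm b g + D.rm b (F1.coeff n) : ℕ) : ℤ) - D.rm b (R'.map D.r) =
        (D.rm b (F1.eval (c : (ZMod D.p)[X])) : ℤ) - D.rm b (F1.coeff n) -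
        D.rm b (R'.map D.r) := by
      push_cast
      ring
    rw [e] at h5
    exact h5

end Pool.Agent.Helper47.FX
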